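import Mathlib
import Pool.Agent.Lib.MP_6216ea_lc.TSBound
import Pool.Agent.Lib.MP_6216ea_lc.TSFixed

/-!
# Thrifty nondeterministic branching programs for tree evaluation

`Var n k`, `value`, `NBP`, `Solves`, `Thrifty`, `TimeAtMost` are defined in
`Pool/Agent/Lib/MP_6216ea_lc/Defs.lean`.

The memory of the program holds the guessed values of the nodes in superposition, as words of a
code in `{0, …, q} ^ d`; at the opening of a node only the cell (of length the minimal squared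
distance of the code) of the value of a linear form is stored.
-/

namespace Pool.Agent.MP_6216ea_lc.Kept.NearPolynomialThrifty

open Pool.Agent.Lib.MP_6216ea_lc

/-- **Small thrifty nondeterministic branching programs for tree evaluation.** There is a constant
`C` such that for all `n`, all `k ≥ 2` and all `r` there is a thrifty nondeterministic branching
program `P` which accepts exactly the inputs of the tree evaluation problem of depth `n` over the
values `Fin k` whose root has the value `r`, which has, on each of them, an accepting computation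
with at most `(4 ^ (n + 1) - 1) / 3` queries, and which has at most

* `k ^ 6 * 2 ^ (C * min ((n + 1) * √(log k)) (n + log k + √(n * log k * log log k)))` states,
* hence at most `N ^ (C * √(log log N))` states, where `N = 2 ^ n * k ^ 2`,
* and at most `N ^ C` states if `log k * log log k ≤ n` or `n * log log k ≤ log k`.

All logarithms are to the base two. -/
theorem result : ∃ C : ℝ, ∀ (n k : ℕ), 2 ≤ k → ∀ r : Fin k,
    ∃ (S : Type) (_ : Fintype S) (P : NBP n k S), Solves P r ∧ Thrifty P ∧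
      TimeAtMost P r ((4 ^ (n + 1) - 1) / 3) ∧
      (Fintype.card S : ℝ) ≤ (k : ℝ) ^ 6 * (2 : ℝ) ^ (C *
        min (((n : ℝ) + 1) * √(Real.logb 2 k)) ((n : ℝ) + Real.logb 2 k +
          √((n : ℝ) * Real.logb 2 k * Real.logb 2 (Real.logb 2 k)))) ∧
      (Fintype.card S : ℝ) ≤ ((2 : ℝ) ^ n * (k : ℝ) ^ 2) ^
        (C * √(Real.logb 2 (Real.logb 2 ((2 : ℝ) ^ n * (k : ℝ) ^ 2)))) ∧
      (Real.logb 2 k * Real.logb 2 (Real.logb 2 k) ≤ n ∨
        (n : ℝ) * Real.logb 2 (Real.logb 2 k) ≤ Real.logb 2 k →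
        (Fintype.card S : ℝ) ≤ ((2 : ℝ) ^ n * (k : ℝ) ^ 2) ^ C) := by
  refine ⟨480, fun n k hk r => ?_⟩
  have hk0 : (0 : ℝ) < k := by positivity
  have hk1 : (1 : ℝ) ≤ k := by
    have : (2 : ℝ) ≤ k := by exact_mod_cast hk
    linarith
  have hk2 : (2 : ℝ) ≤ k := by exact_mod_cast hk
  have hn0 : (0 : ℝ) ≤ n := Nat.cast_nonneg n
  obtain ⟨S₁, f₁, P₁, a₁, b₁, c₁, d₁⟩ := TSCat.main_bound n k hk r
  obtain ⟨S₂, f₂, P₂, a₂, b₂, c₂, d₂⟩ := TSCat.small_height n k hk r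
  set L : ℝ := Real.logb 2 k with hL
  have hL1 : 1 ≤ L := by
    rw [hL, Real.le_logb_iff_rpow_le (by norm_num) hk0]
    simpa using hk2
  have hkL : (2 : ℝ) ^ L = k := Real.rpow_logb (by norm_num) (by norm_num) hk0
  set l : ℝ := Real.logb 2 L with hl
  have hl0 : 0 ≤ l := Real.logb_nonneg (by norm_num) hL1
  set R : ℝ := √((n : ℝ) * L * l) with hR
  have hR0 : 0 ≤ R := Real.sqrt_nonneg _
  obtain ⟨N, hN⟩ : ∃ N : ℝ, N = (2 : ℝ) ^ n * (k : ℝ) ^ 2 := ⟨_, rfl⟩
  have hN1 : N = (2 : ℝ) ^ ((n : ℝ) + 2 * L) := by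
    rw [Real.rpow_add (by norm_num), mul_comm 2 L, Real.rpow_mul (by norm_num), hkL,
      Real.rpow_natCast, hN]
    norm_cast
  have hlN : Real.logb 2 N = (n : ℝ) + 2 * L := by
    rw [hN1]
    exact Real.logb_rpow (by norm_num) (by norm_num)
  -- the second and the third bound follow from the first
  have h2 : (2 : ℝ) ^ (240 * ((n : ℝ) + L + R)) ≤
      N ^ (480 * √(Real.logb 2 (Real.logb 2 N))) := by
    rw [hlN]
    have h2 : (2 : ℝ) ^ ((480 : ℝ) * √(Real.logb 2 ((n : ℝ) + 2 * L)) * ((n : ℝ) + 2 * L)) =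
        N ^ ((480 : ℝ) * √(Real.logb 2 ((n : ℝ) + 2 * L))) := by
      rw [hN1, ← Real.rpow_mul (by norm_num)]
      congr 1
      ring
    rw [← h2]
    apply Real.rpow_le_rpow_of_exponent_le (by norm_num)
    have hll : l ≤ Real.logb 2 ((n : ℝ) + 2 * L) :=
      Real.logb_le_logb_of_le (by norm_num) (by linarith) (by linarith)
    have hlg1 : 1 ≤ Real.logb 2 ((n : ℝ) + 2 * L) := by
      rw [Real.le_logb_iff_rpow_le (by norm_num) (by linarith)]
      norm_num
      linarith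
    obtain ⟨z, hz⟩ : ∃ z : ℝ, z = √(Real.logb 2 ((n : ℝ) + 2 * L)) := ⟨_, rfl⟩
    have hz1 : 1 ≤ z := by
      rw [hz, Real.one_le_sqrt]
      exact hlg1
    have hz2 : z ^ 2 = Real.logb 2 ((n : ℝ) + 2 * L) := by
      rw [hz]
      exact Real.sq_sqrt (by linarith)
    rw [← hz]
    have hRz : R ≤ ((n : ℝ) + L) * z := by
      rw [hR]
      apply Real.sqrt_le_iff.mpr
      refine ⟨by positivity, ?_⟩
      have h3 : (((n : ℝ) + L) * z) ^ 2 = ((n : ℝ) + L) ^ 2 * z ^ 2 := by ring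
      rw [h3, hz2]
      have h4 : (n : ℝ) * L ≤ ((n : ℝ) + L) ^ 2 := by nlinarith [mul_nonneg hn0 hn0]
      exact mul_le_mul h4 hll hl0 (by positivity)
    have h5 : (n : ℝ) + L ≤ ((n : ℝ) + L) * z := by
      nlinarith [mul_nonneg (by linarith : (0:ℝ) ≤ (n : ℝ) + L) (by linarith : (0:ℝ) ≤ z - 1)]
    have h6 : 0 ≤ z * L := by positivity
    nlinarith
  have h3 : (L * l ≤ n ∨ (n : ℝ) * l ≤ L) →
      (2 : ℝ) ^ (240 * ((n : ℝ) + L + R)) ≤ N ^ (480 : ℝ) := by
    intro hor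
    have hRu : R ≤ n + L := by
      rw [hR]
      apply Real.sqrt_le_iff.mpr
      refine ⟨by linarith, ?_⟩
      rcases hor with h | h
      · nlinarith [mul_le_mul_of_nonneg_left h hn0, mul_nonneg hn0 (by linarith : (0:ℝ) ≤ L)]
      · have h2 : ((n : ℝ) * l) * L ≤ L * L := mul_le_mul_of_nonneg_right h (by linarith)
        nlinarith [mul_nonneg hn0 (by linarith : (0:ℝ) ≤ L), mul_nonneg hn0 hn0]
    rw [hN1, ← Real.rpow_mul (by norm_num)]
    apply Real.rpow_le_rpow_of_exponent_le (by norm_num)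
    linarith
  have h1 : (2 : ℝ) ^ (240 * ((n : ℝ) + L + R)) ≤
      (k : ℝ) ^ 6 * (2 : ℝ) ^ (480 * ((n : ℝ) + L + R)) := by
    have h4 : (2 : ℝ) ^ (240 * ((n : ℝ) + L + R)) ≤ (2 : ℝ) ^ (480 * ((n : ℝ) + L + R)) := by
      apply Real.rpow_le_rpow_of_exponent_le (by norm_num)
      nlinarith
    have h5 : (1 : ℝ) ≤ (k : ℝ) ^ 6 := one_le_pow₀ hk1
    calc _ ≤ 1 * (2 : ℝ) ^ (480 * ((n : ℝ) + L + R)) := by rw [one_mul]; exact h4
      _ ≤ _ := mul_le_mul_of_nonneg_right h5 (by positivity)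
  have h4 : (k : ℝ) ^ 6 * (2 : ℝ) ^ (75 * ((n : ℝ) + 1) * √L) ≤
      (k : ℝ) ^ 6 * (2 : ℝ) ^ (480 * (((n : ℝ) + 1) * √L)) := by
    refine mul_le_mul_of_nonneg_left ?_ (by positivity)
    apply Real.rpow_le_rpow_of_exponent_le (by norm_num)
    have : 0 ≤ ((n : ℝ) + 1) * √L := by positivity
    nlinarith
  have hmin : ∀ {x : ℝ}, x ≤ (2 : ℝ) ^ (240 * ((n : ℝ) + L + R)) →
      x ≤ (k : ℝ) ^ 6 * (2 : ℝ) ^ (75 * ((n : ℝ) + 1) * √L) →
      x ≤ (k : ℝ) ^ 6 * (2 : ℝ) ^ (480 * min (((n : ℝ) + 1) * √L) ((n : ℝ) + L + R)) := by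
    intro x hx hx'
    rcases min_choice (((n : ℝ) + 1) * √L) ((n : ℝ) + L + R) with h | h
    · rw [h]; exact hx'.trans h4
    · rw [h]; exact hx.trans h1
  rw [← hN]
  rcases le_total ((2 : ℝ) ^ (240 * ((n : ℝ) + L + R)))
    ((k : ℝ) ^ 6 * (2 : ℝ) ^ (75 * ((n : ℝ) + 1) * √L)) with h | h
  · exact ⟨S₁, f₁, P₁, a₁, b₁, c₁, hmin d₁ (d₁.trans h), d₁.trans h2,
      fun hor => d₁.trans (h3 hor)⟩
  · exact ⟨S₂, f₂, P₂, a₂, b₂, c₂, hmin (d₂.trans h) d₂, (d₂.trans h).trans h2,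
      fun hor => (d₂.trans h).trans (h3 hor)⟩

end Pool.Agent.MP_6216ea_lc.Kept.NearPolynomialThrifty
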