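import Mathlib
import Pool.Agent.Lib.MP_6216ea_lc.RKFinal
import Pool.Agent.Lib.MP_6216ea_lc.RKCf

/-!
# Deterministic context-free languages and read-`k`-times nondeterministic branching programs

There is a deterministic context-free language `L` over an alphabet `Γ × {0,1}` such that for every
`k` the slices `x ↦ [(g 0, x 0) ... (g (n-1), x (n-1)) ∈ L]` need syntactic read-`k`-times
nondeterministic branching programs with `n ^ (c log n)` vertices, `c = c(k) > 0`.
-/

set_option autoImplicit false

namespace Pool.Agent.MP_6216ea_lc.Kept.ReadKPrograms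

open Pool.Agent.MP_6216ea_lc

/-- **Read-`k`-times nondeterministic programs cannot simulate a pushdown store.** -/
theorem result :
    ∃ (Γ : Type) (_ : Fintype Γ) (M : DPDA (Γ × Bool)), M.language.IsContextFree ∧
      ∀ k : ℕ, ∃ c : ℝ, 0 < c ∧ ∃ n₀ : ℕ, ∀ n ≥ n₀, ∃ g : Fin n → Γ,
        ∀ P : NBP (Fin n), P.ReadAtMost k → (∀ x, P.Accepts x ↔ word g x ∈ M.language) →
          (n : ℝ) ^ (c * Real.log n) ≤ Fintype.card P.V :=
  ⟨Lt, inferInstance, rkM, rkM_isContextFree, rk_final⟩

end Pool.Agent.MP_6216ea_lc.Kept.ReadKPrograms
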