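import Mathlib
import Pool.Agent.Lib.MP_6216ea_lc.SQHeadC

/-!
# Deterministic pushdown computations in unambiguous space `(log n) ^ (3/2)`

Every polynomial-time deterministic pushdown program, so every language which is log-space
reducible to a deterministic context-free language, and its complement, has unambiguous
nondeterministic branching programs of size `n ^ O(sqrt (log n))` with polynomially many queries.
-/

set_option autoImplicit false

namespace Pool.Agent.MP_6216ea_lc.Kept.SqrtLogNonuniform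

open Pool.Agent.MP_6216ea_lc

/-- **Deterministic pushdown computations of `T` steps, and their complements, have unambiguous
branching programs of size `L ^ O(sqrt (log T))` with `T ^ O(1)` queries.** -/
theorem result :
    (∃ (C : ℝ) (c : ℕ), ∀ (ι α : Type) (P : PushProg ι α) (T L : ℕ), 2 ≤ T → T ≤ L →
      Fintype.card P.S ≤ L → ∀ y : Bool, ∃ B : LetterNBP ι α,
        (Fintype.card B.V : ℝ) ≤ (L : ℝ) ^ (C * Real.sqrt (Real.log T)) ∧
          B.Unambiguous ∧ B.QueriesAtMost (T ^ c) ∧
          ∀ x, B.Accepts x ↔ (P.AcceptsIn x T ↔ y = true)) ∧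
    ∀ (α : Type) (M : HeadPDA α) (k : ℕ), ∃ (C : ℝ) (c : ℕ), ∀ n : ℕ, 2 ≤ n → ∀ y : Bool,
      ∃ B : LetterNBP (Fin n) α,
        (Fintype.card B.V : ℝ) ≤ (n : ℝ) ^ (C * Real.sqrt (Real.log n)) ∧
          B.Unambiguous ∧ B.QueriesAtMost (n ^ c) ∧
          ∀ x, B.Accepts x ↔ (M.AcceptsIn x (n ^ k) ↔ y = true) :=
  ⟨⟨45420, 70, fun _ _ P T L hT hTL hS y => SQ.push_sqrtU P T L hT hTL hS y⟩,
    fun _ M k => SQ.head_sqrtU M k⟩

end Pool.Agent.MP_6216ea_lc.Kept.SqrtLogNonuniform
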